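import Pool.Agent.Y954.LD.One
import Pool.Agent.H370R2.DirGood

set_option autoImplicit false

/-! DERV: the derivative at almost all isolated zeros, with the weight
(helper954, for the LD project of helper745). -/

namespace Pool.Agent.Y954.LD

open Filter Topology MeasureTheory Complex H370 Pool.Agent.Y745.SW Pool.Agent.Y745.LD

lemma tendsto_LL : Tendsto LL atTop atTop := Real.tendsto_log_atTop.comp Real.tendsto_log_atTop

/-- the summand of one zero is bounded by the weight near the zero -/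
lemma summand_le {κ c A T Ck r γ w : ℝ} {S : Set ℝ} (hr : 0 ≤ r) (hw : 0 < w) (hCk : 0 ≤ Ck)
    (hS : ∀ t ∈ S, ∀ t' ∈ Set.Icc (γ + w / 2) (γ + w), V κ c A T t ≤ Ck * V κ c A T t') :
    ∫ t in S ∩ Set.Icc (γ - r) (γ + r), V κ c A T t ≤
      (4 * r * Ck / w) * ∫ t' in Set.Icc (γ + w / 2) (γ + w), V κ c A T t' := by
  set J := Set.Icc (γ + w / 2) (γ + w) with hJ
  have hc := cont_V κ c A T
  have hJv : volume.real J = w / 2 := by
    rw [hJ, Real.volume_real_Icc_of_le (by linarith)]; ring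
  have hJi : IntegrableOn (V κ c A T) J := hc.continuousOn.integrableOn_compact isCompact_Icc
  have hJf : volume J ≠ ⊤ := by rw [hJ, Real.volume_Icc]; exact ENNReal.ofReal_ne_top
  have hI0 : 0 ≤ ∫ t' in J, V κ c A T t' := integral_nonneg fun t => V_nonneg κ c A T t
  have hb : ∀ t ∈ S, V κ c A T t ≤ 2 * Ck / w * ∫ t' in J, V κ c A T t' := by
    intro t ht
    have h1 : ∫ _t' in J, V κ c A T t ≤ ∫ t' in J, Ck * V κ c A T t' :=
      setIntegral_mono_on (integrableOn_const hJf) (hJi.const_mul _) measurableSet_Icc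
        fun t' ht' => hS t ht t' ht'
    rw [setIntegral_const, integral_const_mul, hJv, smul_eq_mul] at h1
    rw [div_mul_eq_mul_div, le_div_iff₀ hw]
    linarith
  have h2 : ‖∫ t in S ∩ Set.Icc (γ - r) (γ + r), V κ c A T t‖ ≤
      (2 * Ck / w * ∫ t' in J, V κ c A T t') * volume.real (S ∩ Set.Icc (γ - r) (γ + r)) := by
    refine norm_setIntegral_le_of_norm_le_const ?_ fun t ht => ?_
    · refine lt_of_le_of_lt (measure_mono Set.inter_subset_right) ?_
      rw [Real.volume_Icc]; exact ENNReal.ofReal_lt_top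
    · rw [Real.norm_of_nonneg (V_nonneg _ _ _ _ _)]
      exact hb t ht.1
  have h3 : volume.real (S ∩ Set.Icc (γ - r) (γ + r)) ≤ 2 * r := by
    have h4 : volume.real (S ∩ Set.Icc (γ - r) (γ + r)) ≤ volume.real (Set.Icc (γ - r) (γ + r)) :=
      measureReal_mono Set.inter_subset_right (by
        rw [Real.volume_Icc]; exact ENNReal.ofReal_ne_top)
    rw [Real.volume_real_Icc_of_le (by linarith)] at h4
    linarith
  have h5 : 0 ≤ 2 * Ck / w * ∫ t' in J, V κ c A T t' := by positivity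
  calc ∫ t in S ∩ Set.Icc (γ - r) (γ + r), V κ c A T t ≤
        ‖∫ t in S ∩ Set.Icc (γ - r) (γ + r), V κ c A T t‖ := Real.le_norm_self _
    _ ≤ _ := h2
    _ ≤ (2 * Ck / w * ∫ t' in J, V κ c A T t') * (2 * r) := by gcongr
    _ = _ := by ring

/-- the mass of the points at which `P` is far from its weighted mean -/
lemma mass_mark {κ c A T C : ℝ} (hT : 0 ≤ T) (hLL : 0 < LL T)
    (h : ∫ t in T..(2 * T), V κ c A T t * ‖Pc c T t - ((κ * sc c T : ℝ) : ℂ)‖ ^ 2 ≤ C * LL T * IV κ c A T) :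
    ∫ t in {t : ℝ | LL T < ‖Pc c T t - ((κ * sc c T : ℝ) : ℂ)‖} ∩ Set.Icc T (2 * T), V κ c A T t ≤
      C / LL T * IV κ c A T := by
  have hcV := cont_V κ c A T
  have hcP := cont_Pc c T
  have hcn : Continuous fun t => ‖Pc c T t - ((κ * sc c T : ℝ) : ℂ)‖ := (hcP.sub continuous_const).norm
  set S := {t : ℝ | LL T < ‖Pc c T t - ((κ * sc c T : ℝ) : ℂ)‖} with hS
  have hSm : MeasurableSet S := (isOpen_lt continuous_const hcn).measurableSet
  have hg : Continuous fun t => V κ c A T t * ‖Pc c T t - ((κ * sc c T : ℝ) : ℂ)‖ ^ 2 := hcV.mul (hcn.pow 2)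
  have ig : IntegrableOn (fun t => V κ c A T t * ‖Pc c T t - ((κ * sc c T : ℝ) : ℂ)‖ ^ 2)
      (Set.Icc T (2 * T)) := hg.continuousOn.integrableOn_compact isCompact_Icc
  have iV : IntegrableOn (V κ c A T) (Set.Icc T (2 * T)) :=
    hcV.continuousOn.integrableOn_compact isCompact_Icc
  have h1 : ∫ t in S ∩ Set.Icc T (2 * T), LL T ^ 2 * V κ c A T t ≤
      ∫ t in S ∩ Set.Icc T (2 * T), V κ c A T t * ‖Pc c T t - ((κ * sc c T : ℝ) : ℂ)‖ ^ 2 := by
    refine setIntegral_mono_on ((iV.mono_set Set.inter_subset_right).const_mul _)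
      (ig.mono_set Set.inter_subset_right) (hSm.inter measurableSet_Icc) fun t ht => ?_
    have h2 : LL T < ‖Pc c T t - ((κ * sc c T : ℝ) : ℂ)‖ := ht.1
    rw [mul_comm]
    have h3 := V_nonneg κ c A T t
    gcongr
  have h2 : ∫ t in S ∩ Set.Icc T (2 * T), V κ c A T t * ‖Pc c T t - ((κ * sc c T : ℝ) : ℂ)‖ ^ 2 ≤
      ∫ t in T..(2 * T), V κ c A T t * ‖Pc c T t - ((κ * sc c T : ℝ) : ℂ)‖ ^ 2 := by
    rw [intervalIntegral.integral_of_le (by linarith), ← integral_Icc_eq_integral_Ioc]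
    refine setIntegral_mono_set ig (ae_of_all _ fun t => ?_) (ae_of_all _ Set.inter_subset_right)
    have h3 := V_nonneg κ c A T t
    change 0 ≤ V κ c A T t * ‖Pc c T t - ((κ * sc c T : ℝ) : ℂ)‖ ^ 2
    positivity
  rw [integral_const_mul] at h1
  have h3 : LL T ^ 2 * ∫ t in S ∩ Set.Icc T (2 * T), V κ c A T t ≤ LL T ^ 2 * (C / LL T * IV κ c A T) := by
    have h4 : LL T ^ 2 * (C / LL T * IV κ c A T) = C * LL T * IV κ c A T := by field_simp
    rw [h4]
    linarith
  exact le_of_mul_le_mul_left h3 (by positivity)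

lemma setIntegral_union_le {κ c A T : ℝ} {E F : Set ℝ} (hF : MeasurableSet F)
    (hE' : E ⊆ Set.Icc T (2 * T)) (hF' : F ⊆ Set.Icc T (2 * T)) :
    ∫ t in E ∪ F, V κ c A T t ≤ (∫ t in E, V κ c A T t) + ∫ t in F, V κ c A T t := by
  have iV : IntegrableOn (V κ c A T) (Set.Icc T (2 * T)) :=
    (cont_V κ c A T).continuousOn.integrableOn_compact isCompact_Icc
  have h1 : ∫ t in E ∪ F, V κ c A T t = (∫ t in E \ F, V κ c A T t) + ∫ t in F, V κ c A T t := by
    rw [← Set.sdiff_union_self, setIntegral_union Set.disjoint_sdiff_left hF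
      (iV.mono_set (Set.sdiff_subset.trans hE')) (iV.mono_set hF')]
  have h2 : ∫ t in E \ F, V κ c A T t ≤ ∫ t in E, V κ c A T t :=
    setIntegral_mono_set (iV.mono_set hE') (ae_of_all _ fun t => V_nonneg _ _ _ _ _)
      (ae_of_all _ Set.sdiff_subset)
  linarith

theorem t_DERV (hVM1 : P_VM1) (hVMT : P_VMT) (hPW : P_PW) (hLOW : P_LOW) (hZUP : P_ZUP) (hHAR : P_HAR) :
    P_DERV := by
  classical
  intro κ δ ε hδ hδ1 hε
  obtain ⟨C, hC1, hH⟩ := hHAR
  have hC0 : 0 < C := by linarith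
  obtain ⟨A1, hA1, hZ⟩ := hZUP (2 * κ ^ 2 + 1) (by positivity)
  -- the constants
  set θ : ℝ := min (1 / 4) (ε / (8 * C * (A1 + |κ| + 4))) with hθ
  have hden : 0 < A1 + |κ| + 4 := by positivity
  have hθ0 : 0 < θ := by
    rw [hθ]; exact lt_min (by norm_num) (by positivity)
  have hθ4 : θ ≤ 1 / 4 := min_le_left _ _
  have hCθ : C * θ * (A1 + |κ| + 4) ≤ ε / 8 := by
    have h1 : θ ≤ ε / (8 * C * (A1 + |κ| + 4)) := min_le_right _ _
    calc C * θ * (A1 + |κ| + 4) ≤ C * (ε / (8 * C * (A1 + |κ| + 4))) * (A1 + |κ| + 4) := by gcongr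
      _ = ε / 8 := by field_simp
  clear_value θ
  set Ck : ℝ := 9 * Real.exp (2 * |κ|) with hCk
  have hCk0 : 0 < Ck := by positivity
  set δ' : ℝ := min 1 (min (ε / 8) (ε * θ * δ / (16 * Ck))) with hδ'
  have hδ'0 : 0 < δ' := by
    rw [hδ']; exact lt_min one_pos (lt_min (by positivity) (by positivity))
  have hδ'1 : δ' ≤ 1 := min_le_left _ _
  have hδ'2 : δ' ≤ ε / 8 := (min_le_right _ _).trans (min_le_left _ _)
  have hδ'3 : 16 * Ck / (θ * δ) * δ' ≤ ε := by
    have h1 : δ' ≤ ε * θ * δ / (16 * Ck) := (min_le_right _ _).trans (min_le_right _ _)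
    calc 16 * Ck / (θ * δ) * δ' ≤ 16 * Ck / (θ * δ) * (ε * θ * δ / (16 * Ck)) := by gcongr
      _ = ε := by field_simp
  clear_value δ'
  obtain ⟨c0, hc0, hc01, hlow0⟩ := hLOW κ δ' hδ'0
  refine ⟨c0, hc0, hc01, ?_⟩
  intro c hc0c hc1 A2 hA2
  have hcpos : 0 < c := by linarith
  obtain ⟨a1, ha1⟩ := hVM1 κ c hcpos hc1
  obtain ⟨a2, ha2⟩ := hVMT κ c hcpos hc1
  obtain ⟨a3, ha3⟩ := hPW κ A2 hA2
  obtain ⟨a4, ha4⟩ := hlow0 c hc0c hc1
  refine ⟨max (max a1 a2) (max a3 a4), ?_⟩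
  intro A hA e he0 he1
  obtain ⟨C1, hC11, hV1⟩ := ha1 A ((le_max_left _ _).trans ((le_max_left _ _).trans hA))
  obtain ⟨C2, hC21, hV2⟩ := ha2 A ((le_max_right _ _).trans ((le_max_left _ _).trans hA))
  have hV3 := ha3 A ((le_max_left _ _).trans ((le_max_right _ _).trans hA))
  have hV4 := ha4 A ((le_max_right _ _).trans ((le_max_right _ _).trans hA))
  have hbig1 : ∀ᶠ T : ℝ in atTop, C1 ^ 3 * Real.exp (2 * κ ^ 2 * C1) ≤ (δ' / 8) ^ 2 * Real.log T :=
    (Real.tendsto_log_atTop.const_mul_atTop (show 0 < (δ' / 8) ^ 2 by positivity)).eventually_ge_atTop _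
  filter_upwards [hV1, hV2, hV3, hV4, hZ, hbig1, Real.tendsto_log_atTop.eventually_ge_atTop 2,
    tendsto_LL.eventually_ge_atTop (max 1 (2 * C2 / δ')),
    tendsto_LL.eventually_ge_atTop (max (Real.log (2 / δ) + |κ| * C1) (2 * (2 + |Real.log (θ * δ / 4)|) / ε)),
    eventually_ge_atTop (100 : ℝ)]
    with T h1 h2 h3 h4 hz hb1 hL2 hll1 hll2 hT100
  intro hGm U1 U2 r hU1 hU1' hU2 hU2' hr1 hr2
  obtain ⟨hsc, hIV, hVsq, -⟩ := h1
  obtain ⟨EL, hELm, hELT, hELv, hELl⟩ := h4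
  obtain ⟨EZ, hEZm, hEZT, hEZv, hEZu⟩ := hz
  set L := Real.log T with hL
  have hL0 : 0 < L := by linarith
  have hL1 : 1 ≤ L := by linarith
  have hT0 : 0 < T := by linarith
  have hLLL : LL T = Real.log L := rfl
  set ℓ := LL T with hℓ
  have hℓ1 : 1 ≤ ℓ := (le_max_left _ _).trans hll1
  have hℓ0 : 0 < ℓ := by linarith
  have hIV0 : 0 ≤ IV κ c A T := by
    unfold IV
    exact intervalIntegral.integral_nonneg (by linarith) fun t _ => V_nonneg _ _ _ _ _
  -- the bad set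
  set S3 := {t : ℝ | LL T < ‖Pc c T t - ((κ * sc c T : ℝ) : ℂ)‖} ∩ Set.Icc T (2 * T) with hS3
  have hS3m : MeasurableSet S3 :=
    (isOpen_lt continuous_const ((cont_Pc c T).sub continuous_const).norm).measurableSet.inter
      measurableSet_Icc
  set Bd := (EL ∪ EZ) ∪ S3 with hBd
  have hBdm : MeasurableSet Bd := (hELm.union hEZm).union hS3m
  have hBdT : Bd ⊆ Set.Icc T (2 * T) :=
    Set.union_subset (Set.union_subset hELT hEZT) Set.inter_subset_right
  have hBdv : ∫ t in Bd, V κ c A T t ≤ 2 * δ' * IV κ c A T := by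
    have m1 := setIntegral_union_le (κ := κ) (c := c) (A := A) (T := T) (E := EL ∪ EZ) hS3m
      (Set.union_subset hELT hEZT) Set.inter_subset_right
    have m2 := setIntegral_union_le (κ := κ) (c := c) (A := A) (T := T) (E := EL) hEZm hELT hEZT
    have m3 : ∫ t in EZ, V κ c A T t ≤ 2 * (δ' / 8) * IV κ c A T :=
      mass_small hT0 hL1 hC11 (by positivity) hc1 hsc hIV hVsq hb1 hEZm hEZT hEZv
    have m4 : ∫ t in S3, V κ c A T t ≤ C2 / ℓ * IV κ c A T := mass_mark hT0.le hℓ0 h2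
    have m5 : C2 / ℓ ≤ δ' / 2 := by
      have := (le_max_right _ _).trans hll1
      rw [div_le_iff₀ hδ'0] at this
      rw [div_le_iff₀ hℓ0]
      linarith
    have m6 : C2 / ℓ * IV κ c A T ≤ δ' / 2 * IV κ c A T := by gcongr
    have m7 : 0 ≤ δ' * IV κ c A T := by positivity
    linarith
  -- the zeros
  set R : ℝ := δ / (2 * L) with hR
  have hR0 : 0 < R := by positivity
  have hRL : δ / L = 2 * R := by rw [hR]; field_simp
  have hR1 : R ≤ 1 / 20 := by
    rw [hR, div_le_div_iff₀ (by positivity) (by norm_num)]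
    linarith only [hδ1, hL1]
  have hRr : R ≤ r := by
    refine le_trans ?_ hr1
    rw [hR, div_le_div_iff₀ (by positivity) hL0]
    have h5 : δ * L ≤ 1 / 10 * L := mul_le_mul_of_nonneg_right hδ1 hL0.le
    linarith only [h5, hL0]
  have hr0 : 0 < r := by linarith
  set F : Finset ℂ := (isoS U1 U2 (δ / L)).filter (fun s => T + 5 * L ≤ s.im ∧ s.im ≤ 2 * T - 5 * L ∧
      ε * ℓ < |Real.log ‖deriv riemannZeta s‖ - ℓ - (Pc c T s.im).re|) with hF
  have hU1one : 1 ≤ U1 := by linarith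
  have hmem : ∀ z, z ∈ Zf riemannZeta U1 U2 ↔ z ∈ zset riemannZeta U1 U2 := fun z =>
    mem_Zf good_zeta hU1one
  have hprop : ∀ s ∈ F, s.re = 1 / 2 ∧ mult riemannZeta s = 1 ∧ riemannZeta s = 0 ∧
      (∀ s' ∈ Zf riemannZeta U1 U2, s' ≠ s → δ / L ≤ ‖s - s'‖) ∧ s ∈ Zf riemannZeta U1 U2 ∧
      T + 5 * L ≤ s.im ∧ s.im ≤ 2 * T - 5 * L ∧
      ε * ℓ < |Real.log ‖deriv riemannZeta s‖ - ℓ - (Pc c T s.im).re| := by
    intro s hs
    rw [hF, Finset.mem_filter] at hs
    obtain ⟨h1, h2, h3, h4⟩ := hs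
    unfold isoS at h1
    rw [Finset.mem_filter] at h1
    obtain ⟨h5, h6, h7, h8⟩ := h1
    exact ⟨h6, h7, ((hmem s).mp h5).2.2.2.2, h8, h5, h2, h3, h4⟩
  have hsepim : ∀ s ∈ F, ∀ s' ∈ F, s ≠ s' → δ / L ≤ |s.im - s'.im| := by
    intro s hs s' hs' hne
    have h1 := (hprop s hs).2.2.2.1 s' (hprop s' hs').2.2.2.2.1 hne.symm
    have h2 : s - s' = ((s.im - s'.im : ℝ) : ℂ) * Complex.I := by
      apply Complex.ext
      · simp [(hprop s hs).1, (hprop s' hs').1]
      · simp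
    rw [h2, norm_mul, Complex.norm_I, mul_one, Complex.norm_real, Real.norm_eq_abs] at h1
    exact h1
  have hiso : ∀ s ∈ F, ∀ z ∈ Metric.closedBall s R, z ≠ s → riemannZeta z ≠ 0 := by
    intro s hs z hz hzs h0
    obtain ⟨p1, p2, p3, p4, p5, p6, p7, p8⟩ := hprop s hs
    rw [Metric.mem_closedBall, dist_eq_norm] at hz
    have h1 := (Complex.abs_re_le_norm (z - s)).trans hz
    have h2 := (Complex.abs_im_le_norm (z - s)).trans hz
    rw [Complex.sub_re, p1] at h1
    rw [Complex.sub_im] at h2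
    have h1' := abs_le.mp h1
    have h2' := abs_le.mp h2
    have h3 : z ∈ Zf riemannZeta U1 U2 := by
      rw [hmem]
      exact ⟨by linarith, by linarith, by linarith, by linarith, h0⟩
    have h4 := p4 z h3 hzs
    rw [norm_sub_rev, hRL] at h4
    linarith
  set w : ℝ := θ * R with hw
  have hw0 : 0 < w := by positivity
  have hwR : w ≤ R / 4 := by
    have h5 : θ * R ≤ 1 / 4 * R := mul_le_mul_of_nonneg_right hθ4 hR0.le
    linarith only [h5, hw]
  -- the points near the zeros with non-empty `G2` are bad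
  have hgood : ∀ s ∈ F, ∀ t0 ∈ G2 A2 c e T ∩ Set.Icc (s.im - r) (s.im + r),
      Set.Icc (s.im + w / 2) (s.im + w) ⊆ Bd := by
    intro s hs t0 ht0 t ht
    by_contra htB
    obtain ⟨p1, p2, p3, p4, p5, p6, p7, p8⟩ := hprop s hs
    obtain ⟨htG, htI⟩ := ht0
    have htL : t ∉ EL := fun h => htB (Or.inl (Or.inl h))
    have htZ : t ∉ EZ := fun h => htB (Or.inl (Or.inr h))
    have htT : t ∈ Set.Icc T (2 * T) := ⟨by linarith [ht.1], by linarith [ht.2]⟩
    have htS : ‖Pc c T t - ((κ * sc c T : ℝ) : ℂ)‖ ≤ ℓ := by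
      by_contra h
      push Not at h
      exact htB (Or.inr ⟨h, htT⟩)
    have htT' : t ∈ Set.Icc (T + 1) (2 * T - 1) := ⟨by linarith [ht.1], by linarith [ht.2]⟩
    have hs1 : s ≠ 1 := by
      rintro rfl
      simp at p6
      linarith
    -- the value of `P`
    have q1 : |(s.im - t0)| ≤ L ^ (e - 1) := by
      rw [abs_le]; constructor <;> linarith [htI.1, htI.2]
    have q2 : |(t - t0)| ≤ L ^ (e - 1) := by
      rw [abs_le]; constructor <;> linarith [htI.1, htI.2, ht.1, ht.2]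
    have q3 := (htG (s.im - t0) q1).2
    have q4 := (htG (t - t0) q2).2
    rw [show t0 + (s.im - t0) = s.im by ring] at q3
    rw [show t0 + (t - t0) = t by ring] at q4
    have q5 : |(Pc c T t).re - (Pc c T s.im).re| ≤ 2 := by
      rw [← Complex.sub_re]
      refine (Complex.abs_re_le_norm _).trans ?_
      have h1 : Pc c T t - Pc c T s.im = (Pc c T t - Pc c T t0) - (Pc c T s.im - Pc c T t0) := by ring
      rw [h1]
      exact (norm_sub_le _ _).trans (by linarith)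
    have q6 : -(|κ| * (ℓ + C1) + ℓ) ≤ (Pc c T t).re := by
      have h1 := (Complex.abs_re_le_norm _).trans htS
      rw [Complex.sub_re, Complex.ofReal_re] at h1
      have h2 := (abs_le.mp h1).1
      have h3 : |κ * sc c T| ≤ |κ| * (ℓ + C1) := by
        rw [abs_mul, abs_of_nonneg (sc_nonneg c T)]
        have h4 : sc c T ≤ ℓ + C1 := by
          have h5 := (abs_le.mp hsc).2
          have h6 : c * ℓ ≤ 1 * ℓ := by gcongr
          linarith
        gcongr
      have h4 := (abs_le.mp h3).1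
      linarith
    have h1 := one_zero (C := C) (θ := θ) (δ := δ) (δ' := δ' * ℓ) (L := L) (A1 := A1)
      (B := |κ| * (ℓ + C1) + ℓ) (Pt := (Pc c T t).re) (Pg := (Pc c T s.im).re) (t := t) hC1 hθ0 hθ4 hL1 hδ
      hδ1 hH p3 p1 (by linarith) (Pool.Agent.Y141.SW.deriv_ne_of_simple hs1 p3 p2) (hiso s hs)
      (by linarith [ht.1]) (by linarith [ht.2]) (hEZu t htT' htZ) (hELl t htT htL) q6 q5
    rw [← hLLL] at h1
    have r1 : Real.log (2 / δ) + |κ| * C1 ≤ ℓ := (le_max_left _ _).trans hll2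
    have r2 : 2 + |Real.log (θ * δ / 4)| ≤ ε / 2 * ℓ := by
      have := (le_max_right _ _).trans hll2
      rw [div_le_iff₀ hε] at this
      linarith
    have r3 : A1 * ℓ + Real.log (2 / δ) + (|κ| * (ℓ + C1) + ℓ) + δ' * ℓ ≤ (A1 + |κ| + 4) * ℓ := by
      have h5 : δ' * ℓ ≤ 1 * ℓ := by gcongr
      linarith
    have r4 : C * θ * (A1 * ℓ + Real.log (2 / δ) + (|κ| * (ℓ + C1) + ℓ) + δ' * ℓ) ≤ ε / 8 * ℓ := by
      calc _ ≤ C * θ * ((A1 + |κ| + 4) * ℓ) := by gcongr
        _ = (C * θ * (A1 + |κ| + 4)) * ℓ := by ring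
        _ ≤ _ := by gcongr
    have r5 : δ' * ℓ ≤ ε / 8 * ℓ := by gcongr
    have r6 : 0 < ε * ℓ := by positivity
    linarith
  -- the estimate of one summand
  have hone : ∀ s ∈ F, ∫ t in G2 A2 c e T ∩ Set.Icc (s.im - r) (s.im + r), V κ c A T t ≤
      (4 * r * Ck / w) * ∫ t in Set.Icc (s.im + w / 2) (s.im + w) ∩ Bd, V κ c A T t := by
    intro s hs
    by_cases hne : (G2 A2 c e T ∩ Set.Icc (s.im - r) (s.im + r)).Nonempty
    · obtain ⟨t0, ht0⟩ := hne
      rw [Set.inter_eq_self_of_subset_left (hgood s hs t0 ht0)]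
      have h1 : G2 A2 c e T ∩ Set.Icc (s.im - r) (s.im + r) =
          (G2 A2 c e T ∩ Set.Icc (s.im - r) (s.im + r)) ∩ Set.Icc (s.im - r) (s.im + r) := by
        rw [Set.inter_assoc, Set.inter_self]
      rw [h1]
      refine summand_le hr0.le hw0 hCk0.le fun t ht t' ht' => ?_
      refine V_le h3 ht.1 ?_
      rw [← hL, abs_le]
      constructor <;> linarith [ht.2.1, ht.2.2, ht'.1, ht'.2]
    · rw [Set.not_nonempty_iff_eq_empty.mp hne, Measure.restrict_empty, integral_zero_measure]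
      have : 0 ≤ ∫ t in Set.Icc (s.im + w / 2) (s.im + w) ∩ Bd, V κ c A T t :=
        integral_nonneg fun t => V_nonneg _ _ _ _ _
      positivity
  have hdisj : (↑F : Set ℂ).PairwiseDisjoint fun s => Set.Icc (s.im + w / 2) (s.im + w) ∩ Bd := by
    intro s hs s' hs' hne
    have h1 := hsepim s (Finset.mem_coe.mp hs) s' (Finset.mem_coe.mp hs') hne
    rw [hRL] at h1
    rw [Function.onFun, Set.disjoint_left]
    intro t ht ht'
    rcases le_abs.mp h1 with h | h
    · linarith [ht.1.1, ht'.1.2]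
    · linarith [ht.1.2, ht'.1.1]
  have iV : IntegrableOn (V κ c A T) (Set.Icc T (2 * T)) :=
    (cont_V κ c A T).continuousOn.integrableOn_compact isCompact_Icc
  have hsum : ∑ s ∈ F, ∫ t in Set.Icc (s.im + w / 2) (s.im + w) ∩ Bd, V κ c A T t ≤
      2 * δ' * IV κ c A T := by
    rw [← integral_biUnion_finset F (fun s _ => measurableSet_Icc.inter hBdm) hdisj
      (fun s _ => iV.mono_set (Set.inter_subset_right.trans hBdT))]
    refine le_trans ?_ hBdv
    exact setIntegral_mono_set (iV.mono_set hBdT) (ae_of_all _ fun t => V_nonneg _ _ _ _ _)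
      (ae_of_all _ (Set.iUnion₂_subset fun s _ => Set.inter_subset_right))
  calc ∑ s ∈ F, ∫ t in G2 A2 c e T ∩ Set.Icc (s.im - r) (s.im + r), V κ c A T t ≤
      ∑ s ∈ F, (4 * r * Ck / w) * ∫ t in Set.Icc (s.im + w / 2) (s.im + w) ∩ Bd, V κ c A T t :=
        Finset.sum_le_sum hone
    _ = (4 * r * Ck / w) * ∑ s ∈ F, ∫ t in Set.Icc (s.im + w / 2) (s.im + w) ∩ Bd, V κ c A T t := by
        rw [Finset.mul_sum]
    _ ≤ (4 * r * Ck / w) * (2 * δ' * IV κ c A T) := by gcongr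
    _ = (16 * Ck / (θ * δ) * δ') * (r * L * IV κ c A T) := by
        rw [hw, hR]; field_simp; ring
    _ ≤ ε * (r * L * IV κ c A T) := by gcongr

end Pool.Agent.Y954.LD
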