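import Pool.Agent.Y745.LD.DefsB

set_option autoImplicit false

/-! Basic facts about the weight `V` (helper954, for the LD project of helper745). -/

namespace Pool.Agent.Y954.LD

open Filter Topology MeasureTheory Complex H370 Pool.Agent.Y745.SW Pool.Agent.Y745.LD

lemma cont_Pc (c T : ℝ) : Continuous (Pc c T) := by
  unfold Pc Py
  refine continuous_finsetSum _ fun p hp => ?_
  have hp0 : (p : ℂ) ≠ 0 := by
    have := (Finset.mem_filter.mp hp).2.pos
    exact_mod_cast this.ne'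
  exact Continuous.const_cpow (by fun_prop) (Or.inl hp0)

lemma cont_tex (K : ℕ) : Continuous (tex K) := by
  unfold tex
  refine continuous_finsetSum _ fun j _ => ?_
  exact (continuous_id.pow j).div_const _

lemma cont_V (κ c A T : ℝ) : Continuous (V κ c A T) := by
  unfold V Qk
  exact ((cont_tex _).comp (continuous_const.mul (cont_Pc c T))).norm.pow 2

lemma V_nonneg (κ c A T t : ℝ) : 0 ≤ V κ c A T t := by
  unfold V; positivity

lemma sc_nonneg (c T : ℝ) : 0 ≤ sc c T := by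
  unfold sc
  exact Finset.sum_nonneg fun p _ => by positivity

/-- the weight is almost constant near the points of `G2` -/
lemma V_le {κ c A T A2 e t t' : ℝ}
    (hPW : ∀ z : ℂ, ‖z‖ ≤ A2 * LL T →
      ‖tex (KA A T) ((κ : ℂ) * z) - cexp ((κ : ℂ) * z)‖ ≤ 1 / 2 * Real.exp (κ * z.re))
    (ht : t ∈ G2 A2 c e T) (h : |t' - t| ≤ Real.log T ^ (e - 1)) :
    V κ c A T t ≤ 9 * Real.exp (2 * |κ|) * V κ c A T t' := by
  have h0 : (0:ℝ) ≤ Real.log T ^ (e - 1) := (abs_nonneg _).trans h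
  obtain ⟨a1, -⟩ := ht 0 (by rw [abs_zero]; exact h0)
  obtain ⟨b1, b2⟩ := ht (t' - t) h
  rw [add_zero] at a1
  rw [show t + (t' - t) = t' by ring] at b1 b2
  have hn : ∀ z : ℂ, ‖cexp ((κ : ℂ) * z)‖ = Real.exp (κ * z.re) := by
    intro z
    rw [Complex.norm_exp, Complex.re_ofReal_mul]
  have e1 := hPW _ a1
  have e2 := hPW _ b1
  have u1 : ‖Qk κ c A T t‖ ≤ 3 / 2 * Real.exp (κ * (Pc c T t).re) := by
    have h1 := norm_add_le (tex (KA A T) ((κ : ℂ) * Pc c T t) - cexp ((κ : ℂ) * Pc c T t))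
      (cexp ((κ : ℂ) * Pc c T t))
    rw [sub_add_cancel, hn] at h1
    unfold Qk
    linarith
  have u2 : 1 / 2 * Real.exp (κ * (Pc c T t').re) ≤ ‖Qk κ c A T t'‖ := by
    have h1 := norm_sub_norm_le (cexp ((κ : ℂ) * Pc c T t')) (tex (KA A T) ((κ : ℂ) * Pc c T t'))
    rw [norm_sub_rev, hn] at h1
    unfold Qk
    linarith
  have u3 : Real.exp (κ * (Pc c T t).re) ≤ Real.exp |κ| * Real.exp (κ * (Pc c T t').re) := by
    rw [← Real.exp_add]
    refine Real.exp_le_exp.mpr ?_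
    have h1 : |(Pc c T t').re - (Pc c T t).re| ≤ 1 := by
      rw [← Complex.sub_re]
      exact (Complex.abs_re_le_norm _).trans b2
    have h2 : |κ * ((Pc c T t').re - (Pc c T t).re)| ≤ |κ| := by
      rw [abs_mul]
      calc |κ| * |(Pc c T t').re - (Pc c T t).re| ≤ |κ| * 1 := by gcongr
        _ = |κ| := mul_one _
    have h3 := (abs_le.mp h2).1
    linarith
  have u4 : ‖Qk κ c A T t‖ ≤ 3 * Real.exp |κ| * ‖Qk κ c A T t'‖ := by
    calc ‖Qk κ c A T t‖ ≤ 3 / 2 * (Real.exp |κ| * Real.exp (κ * (Pc c T t').re)) :=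
          u1.trans (by gcongr)
      _ = 3 * Real.exp |κ| * (1 / 2 * Real.exp (κ * (Pc c T t').re)) := by ring
      _ ≤ _ := by gcongr
  have u5 : Real.exp (2 * |κ|) = Real.exp |κ| ^ 2 := by
    rw [← Real.exp_nat_mul]; norm_num
  unfold V
  calc ‖Qk κ c A T t‖ ^ 2 ≤ (3 * Real.exp |κ| * ‖Qk κ c A T t'‖) ^ 2 := by gcongr
    _ = _ := by rw [u5]; ring

/-- the mass of a set of small measure -/
lemma mass_le {κ c A T μ : ℝ} {E : Set ℝ} (hT : 0 ≤ T) (hμ : 0 < μ) (hE : MeasurableSet E)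
    (hET : E ⊆ Set.Icc T (2 * T)) :
    ∫ t in E, V κ c A T t ≤ μ * volume.real E + 1 / μ * ∫ t in T..(2 * T), V κ c A T t ^ 2 := by
  have hc := cont_V κ c A T
  have hfin : volume E ≠ ⊤ := by
    refine ne_top_of_le_ne_top ?_ (measure_mono hET)
    rw [Real.volume_Icc]; exact ENNReal.ofReal_ne_top
  have i1 : IntegrableOn (V κ c A T) E :=
    (hc.continuousOn.integrableOn_compact isCompact_Icc).mono_set hET
  have i2' : IntegrableOn (fun t => V κ c A T t ^ 2) (Set.Icc T (2 * T)) :=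
    ((hc.pow 2).continuousOn.integrableOn_compact isCompact_Icc)
  have i2 : IntegrableOn (fun t => V κ c A T t ^ 2) E := i2'.mono_set hET
  have i3 : IntegrableOn (fun _ : ℝ => μ) E := integrableOn_const hfin
  have h1 : ∫ t in E, V κ c A T t ≤ ∫ t in E, (μ + 1 / μ * V κ c A T t ^ 2) := by
    refine integral_mono i1 (i3.add (i2.const_mul _)) fun t => ?_
    change V κ c A T t ≤ μ + 1 / μ * V κ c A T t ^ 2
    have h2 := V_nonneg κ c A T t
    have h3 : μ * V κ c A T t ≤ μ * (μ + 1 / μ * V κ c A T t ^ 2) := by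
      have h4 : μ * (μ + 1 / μ * V κ c A T t ^ 2) = μ ^ 2 + V κ c A T t ^ 2 := by
        field_simp
      rw [h4]
      nlinarith [sq_nonneg (μ - V κ c A T t)]
    exact le_of_mul_le_mul_left h3 hμ
  have h2 : ∫ t in E, (μ + 1 / μ * V κ c A T t ^ 2) =
      μ * volume.real E + 1 / μ * ∫ t in E, V κ c A T t ^ 2 := by
    rw [integral_add i3 (i2.const_mul _), integral_const_mul, setIntegral_const, smul_eq_mul]
    ring
  have h3 : ∫ t in E, V κ c A T t ^ 2 ≤ ∫ t in T..(2 * T), V κ c A T t ^ 2 := by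
    rw [intervalIntegral.integral_of_le (by linarith), ← integral_Icc_eq_integral_Ioc]
    exact setIntegral_mono_set i2' (ae_of_all _ fun t => by positivity) (ae_of_all _ hET)
  rw [h2] at h1
  have h4 : 1 / μ * ∫ t in E, V κ c A T t ^ 2 ≤ 1 / μ * ∫ t in T..(2 * T), V κ c A T t ^ 2 := by
    gcongr
  linarith

/-- the mass of a set of measure `T / (log T)^(2 κ² + 1)` -/
lemma mass_small {κ c A T C η : ℝ} {E : Set ℝ} (hT : 0 < T) (hL : 1 ≤ Real.log T) (hC : 1 ≤ C)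
    (hη : 0 < η) (hc : c < 1) (h1 : |sc c T - c * LL T| ≤ C)
    (h2 : T * Real.exp (κ ^ 2 * sc c T) ≤ C * IV κ c A T)
    (h3 : ∫ t in T..(2 * T), V κ c A T t ^ 2 ≤ C * (T * Real.exp (4 * κ ^ 2 * sc c T)))
    (hbig : C ^ 3 * Real.exp (2 * κ ^ 2 * C) ≤ η ^ 2 * Real.log T)
    (hE : MeasurableSet E) (hET : E ⊆ Set.Icc T (2 * T))
    (hEm : volume.real E ≤ T / Real.log T ^ (2 * κ ^ 2 + 1)) :
    ∫ t in E, V κ c A T t ≤ 2 * η * IV κ c A T := by
  have hC0 : 0 < C := by linarith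
  have hL0 : 0 < Real.log T := by linarith
  set a : ℝ := Real.exp (κ ^ 2 * sc c T) with ha
  have ha0 : 0 < a := Real.exp_pos _
  have ha4 : Real.exp (4 * κ ^ 2 * sc c T) = a ^ 4 := by
    rw [ha, ← Real.exp_nat_mul]; congr 1; push_cast; ring
  have ha2 : a ^ 2 ≤ Real.exp (2 * κ ^ 2 * C) * Real.log T ^ (2 * κ ^ 2) := by
    rw [ha, ← Real.exp_nat_mul, Real.rpow_def_of_pos hL0, ← Real.exp_add]
    refine Real.exp_le_exp.mpr ?_
    have hll : 0 ≤ LL T := Real.log_nonneg hL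
    have h4 : sc c T ≤ LL T + C := by
      have h5 := (abs_le.mp h1).2
      have h6 : c * LL T ≤ 1 * LL T := by gcongr
      linarith
    have h5 : κ ^ 2 * sc c T ≤ κ ^ 2 * (LL T + C) := by gcongr
    have h6 : Real.log (Real.log T) = LL T := rfl
    rw [h6]
    push_cast
    linarith
  rw [ha4] at h3
  set μ : ℝ := C ^ 2 * a ^ 3 / η with hμ
  have hμ0 : 0 < μ := by positivity
  have hm := mass_le (κ := κ) (c := c) (A := A) hT.le hμ0 hE hET
  have hTa : T * a / C ≤ IV κ c A T := by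
    rw [div_le_iff₀ hC0]; linarith
  have e1 : 1 / μ * ∫ t in T..(2 * T), V κ c A T t ^ 2 ≤ η * IV κ c A T := by
    calc 1 / μ * ∫ t in T..(2 * T), V κ c A T t ^ 2 ≤ 1 / μ * (C * (T * a ^ 4)) := by gcongr
      _ = η * (T * a / C) := by rw [hμ]; field_simp
      _ ≤ _ := by gcongr
  have e2 : μ * volume.real E ≤ η * IV κ c A T := by
    have hLp : 0 < Real.log T ^ (2 * κ ^ 2) := Real.rpow_pos_of_pos hL0 _
    have e3 : Real.log T ^ (2 * κ ^ 2 + 1) = Real.log T ^ (2 * κ ^ 2) * Real.log T := by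
      rw [Real.rpow_add hL0, Real.rpow_one]
    have e4 : C ^ 3 * a ^ 2 ≤ η ^ 2 * (Real.log T ^ (2 * κ ^ 2) * Real.log T) := by
      calc C ^ 3 * a ^ 2 ≤ C ^ 3 * (Real.exp (2 * κ ^ 2 * C) * Real.log T ^ (2 * κ ^ 2)) := by gcongr
        _ = (C ^ 3 * Real.exp (2 * κ ^ 2 * C)) * Real.log T ^ (2 * κ ^ 2) := by ring
        _ ≤ (η ^ 2 * Real.log T) * Real.log T ^ (2 * κ ^ 2) := by gcongr
        _ = _ := by ring
    calc μ * volume.real E ≤ μ * (T / Real.log T ^ (2 * κ ^ 2 + 1)) := by gcongr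
      _ = (C ^ 3 * a ^ 2) * (a * T / (C * η * Real.log T ^ (2 * κ ^ 2 + 1))) := by
          rw [hμ]; field_simp
      _ ≤ (η ^ 2 * (Real.log T ^ (2 * κ ^ 2) * Real.log T)) *
          (a * T / (C * η * Real.log T ^ (2 * κ ^ 2 + 1))) := by gcongr
      _ = η * (T * a / C) := by rw [e3]; field_simp
      _ ≤ _ := by gcongr
  linarith

end Pool.Agent.Y954.LD
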