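import Pool.Agent.Y954.LD.Basic
import Pool.Agent.Y141.SW.Der

set_option autoImplicit false

/-! The derivative at one isolated zero from one good point near the zero
(helper954, for the LD project of helper745). -/

namespace Pool.Agent.Y954.LD

open Filter Topology MeasureTheory Complex H370 Pool.Agent.Y745.SW Pool.Agent.Y745.LD

lemma one_zero {C θ δ δ' L A1 B Pt Pg t : ℝ} (hC : 1 ≤ C) (hθ : 0 < θ) (hθ1 : θ ≤ 1 / 4)
    (hL : 1 ≤ L) (hδ : 0 < δ) (hδ1 : δ ≤ 1 / 10)
    (hH : ∀ (f : ℂ → ℂ) (ρ s1 : ℂ) (r M θ : ℝ), 0 < r → 0 < θ → θ ≤ 1 / 4 →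
      AnalyticOnNhd ℂ f (Metric.closedBall ρ r) → f ρ = 0 → deriv f ρ ≠ 0 →
      (∀ z ∈ Metric.closedBall ρ r, z ≠ ρ → f z ≠ 0) → (∀ z ∈ Metric.closedBall ρ r, ‖f z‖ ≤ Real.exp M) →
      s1 ≠ ρ → ‖s1 - ρ‖ ≤ θ * r →
        |Real.log ‖deriv f ρ‖ - (Real.log ‖f s1‖ - Real.log ‖s1 - ρ‖)| ≤
          C * θ * (M - Real.log r - (Real.log ‖f s1‖ - Real.log ‖s1 - ρ‖)))
    {s : ℂ} (hs0 : riemannZeta s = 0) (hsre : s.re = 1 / 2) (hsim : 2 ≤ s.im)
    (hsd : deriv riemannZeta s ≠ 0)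
    (hne : ∀ z ∈ Metric.closedBall s (δ / (2 * L)), z ≠ s → riemannZeta z ≠ 0)
    (ht1 : s.im + θ * (δ / (2 * L)) / 2 ≤ t) (ht2 : t ≤ s.im + θ * (δ / (2 * L)))
    (hup : ∀ z : ℂ, ‖z - (1 / 2 + t * I)‖ ≤ 1 / L → ‖riemannZeta z‖ ≤ L ^ A1)
    (hlow : |Real.log ‖riemannZeta (1 / 2 + t * I)‖ - Pt| ≤ δ')
    (hB : -B ≤ Pt) (hP : |Pt - Pg| ≤ 2) :
    |Real.log ‖deriv riemannZeta s‖ - Real.log L - Pg| ≤
      C * θ * (A1 * Real.log L + Real.log (2 / δ) + B + δ') + δ' + 2 + |Real.log (θ * δ / 4)| := by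
  set R : ℝ := δ / (2 * L) with hR
  have hL0 : 0 < L := by linarith
  have hR0 : 0 < R := by positivity
  have hRL : R * L = δ / 2 := by rw [hR]; field_simp
  have hR1 : R ≤ 1 / 20 := by
    rw [hR, div_le_div_iff₀ (by positivity) (by norm_num)]
    nlinarith
  have hU : Metric.closedBall s R ⊆ ({1}ᶜ : Set ℂ) := by
    intro z hz
    rw [Metric.mem_closedBall, dist_eq_norm] at hz
    rw [Set.mem_compl_iff, Set.mem_singleton_iff]
    rintro rfl
    have h2 := (Complex.abs_im_le_norm (1 - s)).trans hz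
    rw [Complex.sub_im, Complex.one_im, zero_sub, abs_neg, abs_of_pos (by linarith)] at h2
    linarith
  have hd : DifferentiableOn ℂ riemannZeta ({1}ᶜ : Set ℂ) := fun z hz =>
    (differentiableAt_riemannZeta hz).differentiableWithinAt
  set s1 : ℂ := 1 / 2 + t * Complex.I with hs1
  have hs1s : s1 - s = ((t - s.im : ℝ) : ℂ) * Complex.I := by
    apply Complex.ext
    · simp [hs1, hsre]
    · simp [hs1]
  have htp : 0 < t - s.im := by
    have : 0 < θ * R / 2 := by positivity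
    linarith
  have hnorm : ‖s1 - s‖ = t - s.im := by
    rw [hs1s, norm_mul, Complex.norm_I, mul_one, Complex.norm_real, Real.norm_of_nonneg htp.le]
  have hs1ne : s1 ≠ s := by
    intro h
    rw [h, sub_self, norm_zero] at hnorm
    linarith
  have hupb : ∀ z ∈ Metric.closedBall s R, ‖riemannZeta z‖ ≤ Real.exp (A1 * Real.log L) := by
    intro z hz
    rw [Metric.mem_closedBall, dist_eq_norm] at hz
    have h1 := hup z (by
      have h2 : z - s1 = (z - s) - (s1 - s) := by ring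
      rw [h2]
      refine (norm_sub_le _ _).trans ?_
      rw [hnorm, le_div_iff₀ hL0]
      have h3 : t - s.im ≤ 1 / 4 * R := by
        have : θ * R ≤ 1 / 4 * R := by gcongr
        linarith
      have h4 : (‖z - s‖ + (t - s.im)) * L ≤ (R + 1 / 4 * R) * L := by gcongr
      have h5 : (R + 1 / 4 * R) * L = 5 / 4 * (R * L) := by ring
      rw [h5, hRL] at h4
      linarith)
    rwa [Real.rpow_def_of_pos hL0, mul_comm] at h1
  have hhar := hH riemannZeta s s1 R (A1 * Real.log L) θ hR0 hθ hθ1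
    ((hd.analyticOnNhd isOpen_compl_singleton).mono hU) hs0 hsd hne hupb hs1ne
    (by rw [hnorm]; linarith)
  rw [hnorm] at hhar
  set D := Real.log ‖deriv riemannZeta s‖ with hDd
  set Z := Real.log ‖riemannZeta s1‖ with hZd
  set x := t - s.im with hx
  have hx1 : θ * δ / 4 ≤ x * L := by
    calc θ * δ / 4 = θ * (R * L) / 2 := by rw [hRL]; ring
      _ = (θ * R / 2) * L := by ring
      _ ≤ _ := by gcongr; linarith
  have hx2 : x * L ≤ 1 := by
    have h1 : x * L ≤ (θ * R) * L := by gcongr; linarith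
    have h2 : (θ * R) * L = θ * (R * L) := by ring
    rw [h2, hRL] at h1
    nlinarith
  have hlogx : Real.log x = Real.log (x * L) - Real.log L := by
    rw [Real.log_mul htp.ne' hL0.ne']; ring
  have hxL0 : 0 < x * L := by positivity
  have hlx1 : Real.log (x * L) ≤ 0 := Real.log_nonpos hxL0.le hx2
  have hlx2 : |Real.log (x * L)| ≤ |Real.log (θ * δ / 4)| := by
    have h6 : 0 < θ * δ / 4 := by positivity
    rw [abs_of_nonpos hlx1, abs_of_nonpos (Real.log_nonpos h6.le (hx1.trans hx2))]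
    have := Real.log_le_log h6 hx1
    linarith
  have hlogR : Real.log R = -Real.log L - Real.log (2 / δ) := by
    have h1 : R = (L * (2 / δ))⁻¹ := by rw [hR]; field_simp
    rw [h1, Real.log_inv, Real.log_mul hL0.ne' (by positivity)]
    ring
  have e2 := abs_le.mp hlow
  have hbr : A1 * Real.log L - Real.log R - (Z - Real.log x) ≤
      A1 * Real.log L + Real.log (2 / δ) + B + δ' := by
    rw [hlogR, hlogx]
    linarith [e2.1]
  have hAB : |D - (Z - Real.log x)| ≤ C * θ * (A1 * Real.log L + Real.log (2 / δ) + B + δ') :=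
    hhar.trans (by gcongr)
  have e1 := abs_le.mp hAB
  have e3 := abs_le.mp hlx2
  have e4 := abs_le.mp hP
  rw [hlogx] at e1
  rw [abs_le]
  constructor <;> linarith [e1.1, e1.2, e2.1, e2.2, e3.1, e3.2, e4.1, e4.2]

end Pool.Agent.Y954.LD
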